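import Pool.Agent.Y187.KP.Inv

/-!
Operator ranges invariant under a C*-algebra: the final statement.
-/

set_option autoImplicit false

noncomputable section

open scoped ComplexOrder InnerProductSpace

namespace Pool.Agent.Y187.KP

open ContinuousLinearMap (adjoint)

variable {H K : Type} [NormedAddCommGroup H] [InnerProductSpace ℂ H] [CompleteSpace H]
  [NormedAddCommGroup K] [InnerProductSpace ℂ K] [CompleteSpace K]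

theorem inv_bound (A : StarSubalgebra ℂ (H →L[ℂ] H)) (hA : IsClosed (A : Set (H →L[ℂ] H)))
    (T : K →L[ℂ] H) (c : ℝ) (hc : 1 ≤ c)
    (hT : ∀ a ∈ A, ∀ x, ∃ y, T y = a (T x) ∧ ‖y‖ ≤ c * ‖a‖ * ‖x‖) :
    ∃ D : H →L[ℂ] H, 0 ≤ D ∧ (∀ a ∈ A, a * D = D * a) ∧
      LinearMap.range (D : H →ₗ[ℂ] H) = LinearMap.range (T : K →ₗ[ℂ] H) ∧
      ∀ h, ‖D h‖ ≤ c ^ (10 ^ 14) * ‖adjoint T h‖ ∧ ‖adjoint T h‖ ≤ c ^ (10 ^ 14) * ‖D h‖ := by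
  obtain ⟨K₁, hcomp, T₁, p, hinj, hp, hpn, hT₁, hadj⟩ := inv_red A T
  have h1 : ∀ a ∈ A, ∀ x, ∃ y, T₁ y = a (T₁ x) ∧ ‖y‖ ≤ c * ‖a‖ * ‖x‖ := by
    intro a ha x
    obtain ⟨y, hy, hyn⟩ := hT a ha x
    exact ⟨p y, by rw [hp, hy, hT₁], (hpn y).trans hyn⟩
  obtain ⟨u, hu, -⟩ := exists_hom A hA T₁ hinj fun a ha x => by
    obtain ⟨y, hy, -⟩ := h1 a ha x
    exact ⟨y, hy⟩
  have hun : ∀ a, ‖u a‖ ≤ c * ‖a‖ := by
    intro a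
    refine ContinuousLinearMap.opNorm_le_bound _ (by positivity) fun x => ?_
    obtain ⟨y, hy, hyn⟩ := h1 a a.2 x
    have : u a x = y := hinj (by rw [hu, hy])
    rw [this]
    exact hyn
  obtain ⟨D, hD0, hDc, hDr, hDn⟩ := inv_inj A hA T₁ hinj u hu c hc hun
  refine ⟨D, hD0, hDc, ?_, fun h => ?_⟩
  · rw [hDr]
    apply le_antisymm
    · rintro _ ⟨v, rfl⟩
      exact ⟨(v : K), (hT₁ v).symm⟩
    · rintro _ ⟨v, rfl⟩
      exact ⟨p v, hp v⟩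
  · have := hDn h
    rwa [hadj] at this

theorem inv_qual (A : StarSubalgebra ℂ (H →L[ℂ] H)) (hA : IsClosed (A : Set (H →L[ℂ] H)))
    (T : K →L[ℂ] H) (hT : ∀ a ∈ A, ∀ x, ∃ y, T y = a (T x)) :
    ∃ D : H →L[ℂ] H, 0 ≤ D ∧ (∀ a ∈ A, a * D = D * a) ∧
      LinearMap.range (D : H →ₗ[ℂ] H) = LinearMap.range (T : K →ₗ[ℂ] H) := by
  obtain ⟨K₁, hcomp, T₁, p, hinj, hp, hpn, hT₁, hadj⟩ := inv_red A T
  obtain ⟨u, hu, C, hC⟩ := exists_hom A hA T₁ hinj fun a ha x => by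
    obtain ⟨y, hy⟩ := hT a ha x
    exact ⟨p y, by rw [hp, hy, hT₁]⟩
  have hun : ∀ a, ‖u a‖ ≤ max C 1 * ‖a‖ := fun a =>
    (hC a).trans (mul_le_mul_of_nonneg_right (le_max_left _ _) (norm_nonneg _))
  obtain ⟨D, hD0, hDc, hDr, -⟩ := inv_inj A hA T₁ hinj u hu (max C 1) (le_max_right _ _) hun
  refine ⟨D, hD0, hDc, ?_⟩
  rw [hDr]
  apply le_antisymm
  · rintro _ ⟨v, rfl⟩
    exact ⟨(v : K), (hT₁ v).symm⟩
  · rintro _ ⟨v, rfl⟩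
    exact ⟨p v, hp v⟩

/-- the converse is trivial -/
theorem inv_conv (A : StarSubalgebra ℂ (H →L[ℂ] H)) (T : K →L[ℂ] H) (D : H →L[ℂ] H)
    (hDc : ∀ a ∈ A, a * D = D * a)
    (hr : LinearMap.range (D : H →ₗ[ℂ] H) = LinearMap.range (T : K →ₗ[ℂ] H)) :
    ∀ a ∈ A, ∀ x, ∃ y, T y = a (T x) := by
  intro a ha x
  have h1 : T x ∈ LinearMap.range (D : H →ₗ[ℂ] H) := by rw [hr]; exact ⟨x, rfl⟩
  obtain ⟨v, hv⟩ := h1
  have h2 : a (T x) ∈ LinearMap.range (T : K →ₗ[ℂ] H) := by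
    rw [← hr]
    refine ⟨a v, ?_⟩
    have := congrArg (fun X : H →L[ℂ] H => X v) (hDc a ha)
    have h3 : a (D v) = D (a v) := this
    have h4 : D v = T x := hv
    show D (a v) = a (T x)
    rw [← h3, h4]
  obtain ⟨y, hy⟩ := h2
  exact ⟨y, hy⟩

end Pool.Agent.Y187.KP
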