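import Mathlib

/-!
Similarities of a bounded homomorphism of a C*-algebra to *-homomorphisms, in terms of positive
invertible elements `P` with `P u(a) = u(a*)* P`; the basic improvement step.
-/

set_option autoImplicit false

noncomputable section

open scoped ComplexStarModule

namespace Pool.Agent.Y187.KP

variable {A B : Type*} [CStarAlgebra A] [CStarAlgebra B] [PartialOrder B] [StarOrderedRing B]

/-- `P` is positive, between `exp (-L)` and `exp L`, and `P u(a) = u(a*)* P`. -/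
structure Met (u : A →ₐ[ℂ] B) (L : ℝ) (P : B) : Prop where
  lo : algebraMap ℝ B (Real.exp (-L)) ≤ P
  hi : P ≤ algebraMap ℝ B (Real.exp L)
  rel : ∀ a, P * u a = star (u (star a)) * P

omit [PartialOrder B] [StarOrderedRing B] in
theorem algebraMap_nonneg' [PartialOrder B] [StarOrderedRing B] {r : ℝ} (hr : 0 ≤ r) :
    0 ≤ algebraMap ℝ B r := by
  rw [Algebra.algebraMap_eq_smul_one]
  exact smul_nonneg hr zero_le_one

theorem strict_algebraMap {r : ℝ} (hr : 0 < r) : IsStrictlyPositive (algebraMap ℝ B r) := by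
  refine ⟨algebraMap_nonneg' hr.le, ?_⟩
  exact (IsUnit.mk0 r hr.ne').map _

theorem Met.strict {u : A →ₐ[ℂ] B} {L : ℝ} {P : B} (h : Met u L P) : IsStrictlyPositive P :=
  (strict_algebraMap (Real.exp_pos _)).of_le h.lo

/-- norm bound from two order bounds -/
theorem norm_le_of_bounds {a : B} (ha : IsSelfAdjoint a) {r : ℝ} (hr : 0 ≤ r)
    (h1 : a ≤ algebraMap ℝ B r) (h2 : -algebraMap ℝ B r ≤ a) : ‖a‖ ≤ r := by
  have h3 : ∀ x ∈ spectrum ℝ a, x ≤ r := (le_algebraMap_iff_spectrum_le ha).1 h1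
  have h4 : ∀ x ∈ spectrum ℝ a, -r ≤ x := by
    apply (algebraMap_le_iff_le_spectrum ha).1
    rwa [map_neg]
  have h5 : ‖cfc (fun x : ℝ => x) a‖ ≤ r := by
    refine norm_cfc_le hr fun x hx => ?_
    rw [Real.norm_eq_abs, abs_le]
    exact ⟨h4 x hx, h3 x hx⟩
  rwa [cfc_id' ℝ a ha] at h5

theorem norm_unitary_le {C : Type*} [CStarAlgebra C] {w : C} (hw : w ∈ unitary C) : ‖w‖ ≤ 1 := by
  rcases subsingleton_or_nontrivial C with h | h
  · rw [Subsingleton.elim w 0, norm_zero]
    exact zero_le_one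
  · exact (CStarRing.norm_of_mem_unitary hw).le

section rep

variable {u : A →ₐ[ℂ] B} {L : ℝ} {P : B} (h : Met u L P)

include h in
theorem Met.unit : IsUnit (CFC.sqrt P) := (h.strict.sqrt).isUnit

/-- the square root of `P`, as an invertible element -/
def Met.S (h : Met u L P) : Bˣ := (Met.unit h).unit

theorem Met.S_val : ((h.S : Bˣ) : B) = CFC.sqrt P := rfl

theorem Met.S_mul : ((h.S : Bˣ) : B) * (h.S : B) = P := by
  rw [h.S_val]
  exact CFC.sqrt_mul_sqrt_self P h.strict.nonneg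

theorem Met.S_sa : IsSelfAdjoint ((h.S : Bˣ) : B) := by
  rw [h.S_val]
  exact IsSelfAdjoint.of_nonneg (CFC.sqrt_nonneg P)

theorem Met.S_star : star ((h.S : Bˣ) : B) = (h.S : B) := h.S_sa

theorem Met.Sinv_star : star ((h.S⁻¹ : Bˣ) : B) = ((h.S⁻¹ : Bˣ) : B) := by
  have : star (h.S) = h.S := Units.ext h.S_sa
  rw [← Units.coe_star, star_inv, this]

/-- the *-homomorphism `S u S⁻¹` -/
def Met.rep (h : Met u L P) : A →⋆ₐ[ℂ] B where
  toFun a := (h.S : B) * u a * ((h.S⁻¹ : Bˣ) : B)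
  map_one' := by simp
  map_mul' a b := by
    rw [map_mul]
    simp only [mul_assoc]
    rw [← mul_assoc ((h.S⁻¹ : Bˣ) : B) (h.S : B), Units.inv_mul, one_mul]
  map_zero' := by simp
  map_add' a b := by rw [map_add, mul_add, add_mul]
  commutes' r := by
    rw [AlgHom.commutes, ← Algebra.commutes r ((h.S : Bˣ) : B), mul_assoc, Units.mul_inv, mul_one]
  map_star' a := by
    have h1 := h.rel (star a)
    rw [star_star, ← h.S_mul] at h1
    rw [star_mul, star_mul, h.S_star, h.Sinv_star]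
    have h2 : ((h.S⁻¹ : Bˣ) : B) * ((h.S : B) * (h.S : B) * u (star a)) * ((h.S⁻¹ : Bˣ) : B) =
        ((h.S⁻¹ : Bˣ) : B) * (star (u a) * ((h.S : B) * (h.S : B))) * ((h.S⁻¹ : Bˣ) : B) := by
      rw [h1]
    rw [← mul_assoc, ← mul_assoc, Units.inv_mul, one_mul] at h2
    rw [h2]
    simp only [mul_assoc]
    rw [Units.mul_inv, mul_one]

theorem Met.rep_apply (a : A) : h.rep a = (h.S : B) * u a * ((h.S⁻¹ : Bˣ) : B) := rfl

theorem Met.S_u (a : A) : (h.S : B) * u a = h.rep a * (h.S : B) := by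
  rw [h.rep_apply, mul_assoc, Units.inv_mul, mul_one]

/-- the logarithm of `P` -/
def Met.Z (_h : Met u L P) : B := CFC.log P

omit [StarOrderedRing B] in
theorem Met.Z_sa : IsSelfAdjoint h.Z := IsSelfAdjoint.log

/-- conjugation of `P` by a unitary in the range of the representation -/
theorem Met.conj_le {c : ℝ} (hc : 0 ≤ c) (hu : ∀ x, ‖u x‖ ≤ c * ‖x‖) (w : unitary A) :
    star (h.rep w) * P * h.rep w ≤ (c ^ 2) • P := by
  have hw : ‖star (w : A)‖ ≤ 1 := norm_unitary_le (Unitary.star_mem w.2)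
  have hy : ‖u (star (w : A))‖ ≤ c := by
    refine (hu _).trans ?_
    nlinarith
  obtain ⟨y, hyd⟩ : ∃ y, y = u (star (w : A)) := ⟨_, rfl⟩
  rw [← hyd] at hy
  have h1 : y * star y ≤ algebraMap ℝ B (c ^ 2) := by
    refine (CStarAlgebra.mul_star_le_algebraMap_norm_sq (a := y)).trans ?_
    rw [← sub_nonneg, ← map_sub]
    apply algebraMap_nonneg'
    have := pow_le_pow_left₀ (norm_nonneg y) hy 2
    linarith
  have h2 := star_left_conjugate_le_conjugate h1 ((h.S : Bˣ) : B)
  rw [h.S_star] at h2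
  have e1 : (h.S : B) * y = star (h.rep w) * (h.S : B) := by
    rw [hyd, h.S_u, map_star]
  have e2 : (h.S : B) * (y * star y) * (h.S : B) = star (h.rep w) * P * h.rep w := by
    have : (h.S : B) * (y * star y) * (h.S : B) = ((h.S : B) * y) * star ((h.S : B) * y) := by
      rw [star_mul, h.S_star]
      simp only [mul_assoc]
    rw [this, e1, star_mul, star_star, h.S_star]
    calc star (h.rep w) * (h.S : B) * ((h.S : B) * h.rep w)
        = star (h.rep w) * ((h.S : B) * (h.S : B)) * h.rep w := by simp only [mul_assoc]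
      _ = _ := by rw [h.S_mul]
  have e3 : (h.S : B) * algebraMap ℝ B (c ^ 2) * (h.S : B) = (c ^ 2) • P := by
    rw [← Algebra.commutes, mul_assoc, h.S_mul, Algebra.smul_def]
  rw [e2, e3] at h2
  exact h2

theorem Met.rep_unitary (w : unitary A) : h.rep w ∈ unitary B := Unitary.map_mem h.rep w.2

theorem Met.Z_conj_le {c : ℝ} (hc : 1 ≤ c) (hu : ∀ x, ‖u x‖ ≤ c * ‖x‖) (w : unitary A) :
    star (h.rep w) * h.Z * h.rep w ≤ algebraMap ℝ B (2 * Real.log c) + h.Z := by
  have h1 := h.conj_le (by linarith) hu w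
  have hc2 : (0 : ℝ) < c ^ 2 := by positivity
  -- conjugation as a *-automorphism
  let W : unitary B := ⟨h.rep w, h.rep_unitary w⟩
  let φ : B ≃⋆ₐ[ℂ] B := Unitary.conjStarAlgAut ℂ B (star W)
  have hφ : ∀ x, φ x = star (h.rep w) * x * h.rep w := by
    intro x
    rw [Unitary.conjStarAlgAut_apply]
    simp [W]
  have hsP : IsStrictlyPositive (star (h.rep w) * P * h.rep w) := by
    rw [← hφ]
    refine ⟨?_, ?_⟩
    · rw [hφ]
      exact star_left_conjugate_nonneg h.strict.nonneg _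
    · exact h.strict.isUnit.map φ
  have h2 := CFC.log_le_log h1 hsP
  have h3 : CFC.log (star (h.rep w) * P * h.rep w) = star (h.rep w) * h.Z * h.rep w := by
    rw [← hφ, ← hφ]
    unfold Met.Z CFC.log
    have hP : ContinuousOn Real.log (spectrum ℝ P) := by
      refine Real.continuousOn_log.mono fun x hx => ?_
      exact (h.strict.spectrum_pos hx).ne'
    have hPs : IsSelfAdjoint P := h.strict.isSelfAdjoint
    have hPs' : IsSelfAdjoint (φ P) := by
      rw [isSelfAdjoint_iff, ← map_star, hPs.star_eq]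
    have hcont : Continuous φ := by
      have : (φ : B → B) = fun x => star (h.rep w) * x * h.rep w := funext hφ
      rw [this]
      fun_prop
    exact (StarAlgHomClass.map_cfc (S := ℂ) φ Real.log P hP hcont hPs hPs').symm
  have h4 : CFC.log ((c ^ 2) • P) = algebraMap ℝ B (2 * Real.log c) + h.Z := by
    rw [CFC.log_smul' P hc2 h.strict, Real.log_pow]
    rfl
  rw [h3, h4] at h2
  exact h2

/-- the commutator of the logarithm of `P` with the unitaries of the range is small -/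
theorem Met.comm_unitary {c : ℝ} (hc : 1 ≤ c) (hu : ∀ x, ‖u x‖ ≤ c * ‖x‖) (w : unitary A) :
    ‖h.Z * h.rep w - h.rep w * h.Z‖ ≤ 2 * Real.log c := by
  have hl : 0 ≤ 2 * Real.log c := by
    have := Real.log_nonneg hc
    linarith
  obtain ⟨W, hW⟩ : ∃ W, W = h.rep w := ⟨_, rfl⟩
  have hWu : W ∈ unitary B := hW ▸ h.rep_unitary w
  have h1 := h.Z_conj_le hc hu w
  have h2 := h.Z_conj_le hc hu (star w)
  rw [Unitary.coe_star, map_star, star_star] at h2
  rw [← hW] at h1 h2 ⊢
  have hsW : star W * W = 1 := (Unitary.mem_iff.1 hWu).1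
  have hWs : W * star W = 1 := (Unitary.mem_iff.1 hWu).2
  have h3 := star_left_conjugate_le_conjugate h2 W
  have e1 : star W * (W * h.Z * star W) * W = h.Z := by
    calc star W * (W * h.Z * star W) * W = (star W * W) * h.Z * (star W * W) := by
          simp only [mul_assoc]
      _ = h.Z := by rw [hsW, one_mul, mul_one]
  have e2 : star W * (algebraMap ℝ B (2 * Real.log c) + h.Z) * W =
      algebraMap ℝ B (2 * Real.log c) + star W * h.Z * W := by
    rw [mul_add, add_mul, ← Algebra.commutes, mul_assoc, hsW, mul_one]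
  rw [e1, e2] at h3
  have hsa : IsSelfAdjoint (star W * h.Z * W - h.Z) := by
    refine IsSelfAdjoint.sub ?_ h.Z_sa
    rw [isSelfAdjoint_iff, star_mul, star_mul, star_star, h.Z_sa.star_eq, mul_assoc]
  have h4 : ‖star W * h.Z * W - h.Z‖ ≤ 2 * Real.log c := by
    apply norm_le_of_bounds hsa hl
    · rw [sub_le_iff_le_add]
      exact h1
    · rw [neg_le_iff_add_nonneg, sub_add_eq_add_sub, sub_nonneg, add_comm]
      exact h3
  have e3 : h.Z * W - W * h.Z = W * (star W * h.Z * W - h.Z) := by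
    rw [mul_sub, ← mul_assoc, ← mul_assoc, hWs, one_mul]
  rw [e3]
  calc ‖W * (star W * h.Z * W - h.Z)‖ ≤ ‖W‖ * ‖star W * h.Z * W - h.Z‖ := norm_mul_le _ _
    _ ≤ 1 * (2 * Real.log c) :=
        mul_le_mul (norm_unitary_le hWu) h4 (norm_nonneg _) zero_le_one
    _ = _ := one_mul _

/-- a linear map bounded on the unitaries is bounded -/
theorem bound_of_unitary {E : Type*} [SeminormedAddCommGroup E] [NormedSpace ℂ E] (D : A →ₗ[ℂ] E)
    {M : ℝ} (hD : ∀ w : unitary A, ‖D w‖ ≤ M) (x : A) :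
    ‖D x‖ ≤ 2 * M * ‖x‖ := by
  obtain ⟨w, cf, h1, h2⟩ := CStarAlgebra.exists_sum_four_unitary x
  have hM : 0 ≤ M := (norm_nonneg _).trans (hD 1)
  have e : D x = ∑ i, D (cf i • (w i : A)) := by
    conv_lhs => rw [h1]
    rw [map_sum]
  rw [e]
  refine (norm_sum_le _ _).trans ?_
  calc ∑ i, ‖D (cf i • (w i : A))‖ ≤ ∑ _i : Fin 4, (‖x‖ / 2) * M := by
        refine Finset.sum_le_sum fun i _ => ?_
        rw [map_smul, norm_smul]
        exact mul_le_mul (h2 i) (hD _) (norm_nonneg _) (by positivity)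
    _ = 2 * M * ‖x‖ := by
        rw [Finset.sum_const, Finset.card_univ, Fintype.card_fin]
        simp only [nsmul_eq_mul, Nat.cast_ofNat]
        ring

/-- the derivation `x ↦ Z π(x) - π(x) Z` -/
def Met.der (h : Met u L P) : A →ₗ[ℂ] B where
  toFun x := h.Z * h.rep x - h.rep x * h.Z
  map_add' x y := by
    rw [map_add, mul_add, add_mul]
    abel
  map_smul' r x := by
    rw [map_smul, RingHom.id_apply, mul_smul_comm, smul_mul_assoc, smul_sub]

theorem Met.der_apply (x : A) : h.der x = h.Z * h.rep x - h.rep x * h.Z := rfl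

theorem Met.der_mul (x y : A) : h.der (x * y) = h.rep x * h.der y + h.der x * h.rep y := by
  simp only [h.der_apply, map_mul, mul_sub, sub_mul, mul_assoc]
  abel

theorem Met.der_le {c : ℝ} (hc : 1 ≤ c) (hu : ∀ x, ‖u x‖ ≤ c * ‖x‖) (x : A) :
    ‖h.der x‖ ≤ 4 * Real.log c * ‖x‖ := by
  have := bound_of_unitary h.der (h.comm_unitary hc hu) x
  linarith

theorem Met.star_S (a : A) : star (u (star a)) * (h.S : B) = (h.S : B) * h.rep a := by
  have h1 := congrArg star (h.S_u (star a))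
  rw [star_mul, star_mul, h.S_star, map_star h.rep, star_star] at h1
  exact h1

theorem exp_le_one_sub {q : ℝ} (hq : |q| ≤ 1 / 2) : Real.exp (-q - 2 * q ^ 2) ≤ 1 - q := by
  obtain ⟨h1, h2⟩ := abs_le.1 hq
  have h3 : 0 < 1 + (q + 2 * q ^ 2) := by nlinarith [sq_nonneg (q + 1 / 4)]
  have h4 : 1 + (q + 2 * q ^ 2) ≤ Real.exp (q + 2 * q ^ 2) := by
    linarith [Real.add_one_le_exp (q + 2 * q ^ 2)]
  have e : -q - 2 * q ^ 2 = -(q + 2 * q ^ 2) := by ring
  rw [e, Real.exp_neg]
  calc (Real.exp (q + 2 * q ^ 2))⁻¹ ≤ (1 + (q + 2 * q ^ 2))⁻¹ := inv_anti₀ h3 h4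
    _ ≤ 1 - q := by
        rw [inv_le_iff_one_le_mul₀ h3]
        nlinarith [sq_nonneg q, mul_nonneg (sq_nonneg q) (by linarith : 0 ≤ 1 - 2 * q)]

include h in
theorem Met.spec {x : ℝ} (hx : x ∈ spectrum ℝ P) :
    0 < x ∧ -L ≤ Real.log x ∧ Real.log x ≤ L := by
  have hPs : IsSelfAdjoint P := h.strict.isSelfAdjoint
  have h1 := (algebraMap_le_iff_le_spectrum hPs).1 h.lo x hx
  have h2 := (le_algebraMap_iff_spectrum_le hPs).1 h.hi x hx
  have h0 : 0 < x := (Real.exp_pos _).trans_le h1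
  refine ⟨h0, ?_, ?_⟩
  · rwa [Real.le_log_iff_exp_le h0]
  · rwa [Real.log_le_iff_le_exp h0]

theorem Met.SZS (α t : ℝ) :
    (h.S : B) * (algebraMap ℝ B α - t • h.Z) * (h.S : B) =
      cfc (fun x : ℝ => x * (α - t * Real.log x)) P := by
  have hPs : IsSelfAdjoint P := h.strict.isSelfAdjoint
  have hlog : ContinuousOn Real.log (spectrum ℝ P) :=
    Real.continuousOn_log.mono fun x hx => (h.spec hx).1.ne'
  have e1 : (h.S : B) = cfc Real.sqrt P := by
    rw [h.S_val, CFC.sqrt_eq_real_sqrt P h.strict.nonneg, cfcₙ_eq_cfc]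
  have e2 : algebraMap ℝ B α - t • h.Z = cfc (fun x : ℝ => α - t * Real.log x) P := by
    rw [cfc_sub (fun _ => α) (fun x => t * Real.log x) P (by fun_prop) (by fun_prop),
      cfc_const α P hPs, cfc_const_mul t Real.log P hlog]
    rfl
  rw [e2, e1, ← cfc_mul _ _ P (by fun_prop) (by fun_prop), ← cfc_mul _ _ P (by fun_prop)
    (by fun_prop)]
  refine cfc_congr fun x hx => ?_
  have h0 := (h.spec hx).1
  have := Real.mul_self_sqrt h0.le
  calc √x * (α - t * Real.log x) * √x = (√x * √x) * (α - t * Real.log x) := by ring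
    _ = _ := by rw [this]

/-- **The improvement step.** -/
theorem Met.step {κ t : ℝ} (T0 : B) (hT : IsSelfAdjoint T0)
    (hcomm : ∀ a, T0 * h.rep a = h.rep a * T0) (hZ : ‖h.Z - T0‖ ≤ κ) (hL : 0 ≤ L)
    (ht : 0 < t) (ht1 : t ≤ 1) (ht2 : t * (L + κ) ≤ 1 / 2) :
    ∃ P1, Met u ((1 - t) * L + t * κ + 2 * t ^ 2 * (L + κ) ^ 2) P1 := by
  have hκ : 0 ≤ κ := (norm_nonneg _).trans hZ
  have hlog : ContinuousOn Real.log (spectrum ℝ P) :=
    Real.continuousOn_log.mono fun x hx => (h.spec hx).1.ne'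
  have hsa : IsSelfAdjoint (h.Z - T0) := h.Z_sa.sub hT
  have hb1 : h.Z - T0 ≤ algebraMap ℝ B κ := by
    refine hsa.le_algebraMap_norm_self.trans ?_
    rw [← sub_nonneg, ← map_sub]
    exact algebraMap_nonneg' (by linarith)
  have hb2 : -algebraMap ℝ B κ ≤ h.Z - T0 := by
    refine le_trans ?_ hsa.neg_algebraMap_norm_le_self
    rw [neg_le_neg_iff, ← sub_nonneg, ← map_sub]
    exact algebraMap_nonneg' (by linarith)
  obtain ⟨D, hD⟩ : ∃ D : B, D = 1 - t • T0 := ⟨_, rfl⟩
  have hup : D ≤ algebraMap ℝ B (1 + t * κ) - t • h.Z := by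
    have h1 : t • (h.Z - T0) ≤ t • algebraMap ℝ B κ := smul_le_smul_of_nonneg_left hb1 ht.le
    rw [← sub_nonneg] at h1 ⊢
    convert h1 using 1
    rw [hD, map_add, map_one, map_mul, smul_sub, ← Algebra.smul_def]
    abel
  have hlo : algebraMap ℝ B (1 - t * κ) - t • h.Z ≤ D := by
    have h1 : t • (-algebraMap ℝ B κ) ≤ t • (h.Z - T0) := smul_le_smul_of_nonneg_left hb2 ht.le
    rw [← sub_nonneg] at h1 ⊢
    convert h1 using 1
    rw [hD, map_sub, map_one, map_mul, smul_sub, smul_neg, ← Algebra.smul_def]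
    abel
  refine ⟨(h.S : B) * D * (h.S : B), ?_, ?_, ?_⟩
  · have h1 := star_left_conjugate_le_conjugate hlo ((h.S : Bˣ) : B)
    rw [h.S_star, h.SZS] at h1
    refine le_trans ?_ h1
    apply algebraMap_le_cfc _ _ _ _ (by fun_prop) h.strict.isSelfAdjoint
    intro x hx
    obtain ⟨h0, hl1, hl2⟩ := h.spec hx
    obtain ⟨s, hs⟩ : ∃ s, s = Real.log x := ⟨_, rfl⟩
    have hxs : x = Real.exp s := by rw [hs, Real.exp_log h0]
    rw [← hs] at hl1 hl2 ⊢
    have hq : |t * κ + t * s| ≤ t * (L + κ) := by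
      rw [abs_le]
      constructor <;> nlinarith
    have h2 := exp_le_one_sub (hq.trans ht2)
    have hq2 : (t * κ + t * s) ^ 2 ≤ (t * (L + κ)) ^ 2 := by
      rw [← sq_abs]
      exact pow_le_pow_left₀ (abs_nonneg _) hq 2
    calc Real.exp (-((1 - t) * L + t * κ + 2 * t ^ 2 * (L + κ) ^ 2))
        ≤ Real.exp (s + (-(t * κ + t * s) - 2 * (t * κ + t * s) ^ 2)) := by
          apply Real.exp_le_exp.2
          have : (1 - t) * (-L) ≤ (1 - t) * s := mul_le_mul_of_nonneg_left hl1 (by linarith)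
          nlinarith
      _ = Real.exp s * Real.exp (-(t * κ + t * s) - 2 * (t * κ + t * s) ^ 2) := Real.exp_add _ _
      _ ≤ Real.exp s * (1 - (t * κ + t * s)) :=
          mul_le_mul_of_nonneg_left h2 (Real.exp_pos _).le
      _ = x * (1 - t * κ - t * s) := by rw [hxs]; ring
  · have h1 := star_left_conjugate_le_conjugate hup ((h.S : Bˣ) : B)
    rw [h.S_star, h.SZS] at h1
    refine h1.trans ?_
    apply cfc_le_algebraMap _ _ _ _ (by fun_prop) h.strict.isSelfAdjoint
    intro x hx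
    obtain ⟨h0, hl1, hl2⟩ := h.spec hx
    obtain ⟨s, hs⟩ : ∃ s, s = Real.log x := ⟨_, rfl⟩
    have hxs : x = Real.exp s := by rw [hs, Real.exp_log h0]
    rw [← hs] at hl1 hl2 ⊢
    have h2 : 1 + (t * κ - t * s) ≤ Real.exp (t * κ - t * s) := by
      linarith [Real.add_one_le_exp (t * κ - t * s)]
    calc x * (1 + t * κ - t * s) = Real.exp s * (1 + (t * κ - t * s)) := by rw [hxs]; ring
      _ ≤ Real.exp s * Real.exp (t * κ - t * s) :=
          mul_le_mul_of_nonneg_left h2 (Real.exp_pos _).le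
      _ = Real.exp (s + (t * κ - t * s)) := (Real.exp_add _ _).symm
      _ ≤ Real.exp ((1 - t) * L + t * κ + 2 * t ^ 2 * (L + κ) ^ 2) := by
          apply Real.exp_le_exp.2
          have : (1 - t) * s ≤ (1 - t) * L := mul_le_mul_of_nonneg_left hl2 (by linarith)
          nlinarith [sq_nonneg (t * (L + κ))]
  · intro a
    have hDc : D * h.rep a = h.rep a * D := by
      rw [hD, sub_mul, mul_sub, one_mul, mul_one, smul_mul_assoc, mul_smul_comm, hcomm]
    calc (h.S : B) * D * (h.S : B) * u a = (h.S : B) * D * ((h.S : B) * u a) := by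
          rw [mul_assoc]
      _ = (h.S : B) * (D * h.rep a) * (h.S : B) := by
          rw [h.S_u]
          simp only [mul_assoc]
      _ = ((h.S : B) * h.rep a) * D * (h.S : B) := by
          rw [hDc]
          simp only [mul_assoc]
      _ = star (u (star a)) * ((h.S : B) * D * (h.S : B)) := by
          rw [← h.star_S]
          simp only [mul_assoc]

end rep

end Pool.Agent.Y187.KP
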