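import Pool.Agent.Y187.KP.Step

/-!
The infimum of the similarity constants.
-/

set_option autoImplicit false

noncomputable section

namespace Pool.Agent.Y187.KP

variable {A B : Type*} [CStarAlgebra A] [CStarAlgebra B] [PartialOrder B] [StarOrderedRing B]

theorem algebraMap_mono' {r s : ℝ} (h : r ≤ s) : algebraMap ℝ B r ≤ algebraMap ℝ B s := by
  rw [← sub_nonneg, ← map_sub]
  exact algebraMap_nonneg' (by linarith)

theorem Met.mono {u : A →ₐ[ℂ] B} {L L' : ℝ} {P : B} (h : Met u L P) (hL : L ≤ L') :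
    Met u L' P where
  lo := (algebraMap_mono' (Real.exp_le_exp.2 (by linarith))).trans h.lo
  hi := h.hi.trans (algebraMap_mono' (Real.exp_le_exp.2 hL))
  rel := h.rel

theorem exists_small {u : A →ₐ[ℂ] B} {κ : ℝ} (hκ : 0 ≤ κ)
    (hstep : ∀ (L : ℝ) (P : B) (h : Met u L P), 0 ≤ L → ∃ T0 : B, IsSelfAdjoint T0 ∧
      (∀ a, T0 * h.rep a = h.rep a * T0) ∧ ‖h.Z - T0‖ ≤ κ)
    (h0 : ∃ L0 P0, 0 ≤ L0 ∧ Met u L0 P0) :
    ∀ L, κ < L → ∃ P, Met u L P := by
  obtain ⟨E, hE⟩ : ∃ E : Set ℝ, E = {L | 0 ≤ L ∧ ∃ P, Met u L P} := ⟨_, rfl⟩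
  have hne : E.Nonempty := by
    obtain ⟨L0, P0, h1, h2⟩ := h0
    exact ⟨L0, by rw [hE]; exact ⟨h1, P0, h2⟩⟩
  have hbd : BddBelow E := ⟨0, fun L hL => by rw [hE] at hL; exact hL.1⟩
  obtain ⟨m, hm⟩ : ∃ m, m = sInf E := ⟨_, rfl⟩
  have hm0 : 0 ≤ m := by
    rw [hm]
    exact le_csInf hne fun L hL => by rw [hE] at hL; exact hL.1
  have hmle : ∀ L ∈ E, m ≤ L := fun L hL => by rw [hm]; exact csInf_le hbd hL
  have key : m ≤ κ := by
    by_contra hcon
    push Not at hcon
    obtain ⟨M, hM⟩ : ∃ M, M = m + 1 + κ := ⟨_, rfl⟩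
    have hM1 : 1 ≤ M := by linarith
    obtain ⟨d, hd⟩ : ∃ d, d = m - κ := ⟨_, rfl⟩
    have hd0 : 0 < d := by linarith
    have hdM : d ≤ M := by linarith
    obtain ⟨t, ht⟩ : ∃ t, t = d / (4 * M ^ 2) := ⟨_, rfl⟩
    have hM2 : (0 : ℝ) < 4 * M ^ 2 := by positivity
    have ht0 : 0 < t := by rw [ht]; positivity
    have htM : t * (4 * M ^ 2) = d := by rw [ht]; field_simp
    have htM1 : t * M ≤ 1 / 2 := by
      have : t * M * (4 * M) ≤ 1 / 2 * (4 * M) := by nlinarith
      exact le_of_mul_le_mul_right this (by linarith)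
    have ht1 : t ≤ 1 := by nlinarith
    obtain ⟨L, hLE, hLlt⟩ : ∃ L ∈ E, L < m + t * d / 4 := by
      apply exists_lt_of_csInf_lt hne
      rw [← hm]
      have : 0 < t * d := by positivity
      linarith
    have hLE' := hLE
    rw [hE] at hLE'
    obtain ⟨hL0, P, hP⟩ := hLE'
    obtain ⟨T0, a1, a2, a3⟩ := hstep L P hP hL0
    have htd : t * d ≤ d := by nlinarith
    have hLM : L + κ ≤ M := by
      have h1 := hmle L hLE
      have : t * d / 4 ≤ 1 := by
        have : t * d ≤ t * M := mul_le_mul_of_nonneg_left hdM ht0.le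
        linarith
      linarith
    obtain ⟨P1, hP1⟩ := hP.step T0 a1 a2 a3 hL0 ht0 ht1
      ((mul_le_mul_of_nonneg_left hLM ht0.le).trans htM1)
    have hL1 : 0 ≤ (1 - t) * L + t * κ + 2 * t ^ 2 * (L + κ) ^ 2 := by
      have : 0 ≤ (1 - t) * L := mul_nonneg (by linarith) hL0
      positivity
    have h2 := hmle _ (by rw [hE]; exact ⟨hL1, P1, hP1⟩)
    have h3 : (L + κ) ^ 2 ≤ M ^ 2 := pow_le_pow_left₀ (by linarith) hLM 2
    have h4 : 2 * t ^ 2 * (L + κ) ^ 2 ≤ t * d / 2 := by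
      calc 2 * t ^ 2 * (L + κ) ^ 2 ≤ 2 * t ^ 2 * M ^ 2 :=
            mul_le_mul_of_nonneg_left h3 (by positivity)
        _ = t * (t * (4 * M ^ 2)) / 2 := by ring
        _ = t * d / 2 := by rw [htM]
    have h5 : (1 - t) * L ≤ (1 - t) * (m + t * d / 4) :=
      mul_le_mul_of_nonneg_left hLlt.le (by linarith)
    have h6 : t * κ = t * m - t * d := by rw [hd]; ring
    have h7 : 0 < t * d := by positivity
    nlinarith [mul_pos ht0 h7]
  intro L hL
  obtain ⟨L1, h1, h2⟩ := exists_lt_of_csInf_lt hne (b := L) (by rw [← hm]; linarith)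
  rw [hE] at h1
  obtain ⟨-, P, hP⟩ := h1
  exact ⟨P, hP.mono h2.le⟩

section bounds

variable {u : A →ₐ[ℂ] B} {L : ℝ} {P : B} (h : Met u L P)

theorem Met.norm_S_sq : ‖(h.S : B)‖ ^ 2 ≤ Real.exp L := by
  have h1 : ‖(h.S : B)‖ ^ 2 = ‖P‖ := by
    have e : P = star (h.S : B) * (h.S : B) := by
      rw [h.S_star]
      exact h.S_mul.symm
    calc ‖(h.S : B)‖ ^ 2 = ‖star (h.S : B) * (h.S : B)‖ := by
          rw [CStarRing.norm_star_mul_self, sq]
      _ = ‖P‖ := congrArg _ e.symm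
  rw [h1]
  exact (CStarAlgebra.norm_le_iff_le_algebraMap P (Real.exp_pos L).le h.strict.nonneg).2 h.hi

theorem Met.norm_Sinv_sq : ‖((h.S⁻¹ : Bˣ) : B)‖ ^ 2 ≤ Real.exp L := by
  obtain ⟨R, hR⟩ : ∃ R : B, R = ((h.S⁻¹ : Bˣ) : B) := ⟨_, rfl⟩
  have hRs : star R = R := by rw [hR]; exact h.Sinv_star
  have h1 : ‖R‖ ^ 2 = ‖R * R‖ := by
    nth_rw 2 [← hRs]
    rw [CStarRing.norm_star_mul_self, sq]
  have h2 := star_left_conjugate_le_conjugate h.lo R
  have h3 : R * P * R = 1 := by
    calc R * P * R = R * ((h.S : B) * (h.S : B)) * R := by rw [h.S_mul]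
      _ = (R * (h.S : B)) * ((h.S : B) * R) := by simp only [mul_assoc]
      _ = 1 := by rw [hR, Units.inv_mul, Units.mul_inv, mul_one]
  have h4 : R * algebraMap ℝ B (Real.exp (-L)) * R = Real.exp (-L) • (R * R) := by
    rw [← Algebra.commutes, mul_assoc, Algebra.smul_def]
  rw [hRs, h3, h4] at h2
  have h5 : R * R ≤ algebraMap ℝ B (Real.exp L) := by
    have h6 : Real.exp L • (Real.exp (-L) • (R * R)) ≤ Real.exp L • (1 : B) :=
      smul_le_smul_of_nonneg_left h2 (Real.exp_pos L).le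
    rwa [smul_smul, ← Real.exp_add, add_neg_cancel, Real.exp_zero, one_smul,
      ← Algebra.algebraMap_eq_smul_one] at h6
  have h7 : 0 ≤ R * R := by
    nth_rw 1 [← hRs]
    exact star_mul_self_nonneg R
  rw [← hR, h1]
  exact (CStarAlgebra.norm_le_iff_le_algebraMap (R * R) (Real.exp_pos L).le h7).2 h5

end bounds

/-- A unital homomorphism of norm at most one preserves adjoints. -/
theorem star_of_contractive (u : A →ₐ[ℂ] B) (hu : ∀ x, ‖u x‖ ≤ ‖x‖) (x : A) :
    u (star x) = star (u x) := by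
  have hun : ∀ w : unitary A, u (star (w : A)) = star (u (w : A)) := by
    intro w
    obtain ⟨a, ha⟩ : ∃ a, a = u (w : A) := ⟨_, rfl⟩
    obtain ⟨b, hb⟩ : ∃ b, b = u (star (w : A)) := ⟨_, rfl⟩
    have hab : a * b = 1 := by
      rw [ha, hb, ← map_mul, Unitary.mul_star_self_of_mem w.2, map_one]
    have hba : b * a = 1 := by
      rw [ha, hb, ← map_mul, Unitary.star_mul_self_of_mem w.2, map_one]
    have na : ‖a‖ ≤ 1 := by rw [ha]; exact (hu _).trans (norm_unitary_le w.2)
    have nb : ‖b‖ ≤ 1 := by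
      rw [hb]
      exact (hu _).trans (norm_unitary_le (Unitary.star_mem w.2))
    have k1 : star a * a ≤ 1 := by
      have := CStarAlgebra.star_mul_le_algebraMap_norm_sq (a := a)
      refine this.trans ?_
      rw [← map_one (algebraMap ℝ B)]
      exact algebraMap_mono' (by nlinarith [norm_nonneg a])
    have k2 : star b * b ≤ 1 := by
      have := CStarAlgebra.star_mul_le_algebraMap_norm_sq (a := b)
      refine this.trans ?_
      rw [← map_one (algebraMap ℝ B)]
      exact algebraMap_mono' (by nlinarith [norm_nonneg b])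
    have k3 : 1 ≤ star a * a := by
      have h2 := star_left_conjugate_le_conjugate k2 a
      have e : star a * (star b * b) * a = star (b * a) * (b * a) := by
        rw [star_mul]
        simp only [mul_assoc]
      rw [e, hba, star_one, mul_one, mul_one] at h2
      exact h2
    have k4 : star a * a = 1 := le_antisymm k1 k3
    rw [← hb, ← ha]
    calc b = star a * a * b := by rw [k4, one_mul]
      _ = star a := by rw [mul_assoc, hab, mul_one]
  have hx : x ∈ Submodule.span ℂ (unitary A : Set A) := by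
    rw [CStarAlgebra.span_unitary]
    trivial
  induction hx using Submodule.span_induction with
  | mem y hy => exact hun ⟨y, hy⟩
  | zero => simp
  | add y z _ _ h1 h2 => rw [star_add, map_add, map_add, star_add, h1, h2]
  | smul r y _ h1 => rw [star_smul, map_smul, map_smul, star_smul, h1]

end Pool.Agent.Y187.KP
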