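import Pool.Agent.H770R2.Kad.HAsm
import Pool.Agent.H720R2.Kad4.Dhom
import Pool.Agent.H720R2.Kad4.Dinner
import Pool.Agent.Y187.KP.Inf

/-!
The constant in the derivation theorem, from the theorem on similarities.
-/

set_option autoImplicit false

noncomputable section

namespace Pool.Agent.Y187.KP

open H759R2.Kad

/-- the bound for the similarities -/
def Bd (c : ℝ) : ℝ := 864 * (2 * c) ^ 29

theorem one_le_Bd {c : ℝ} (hc : 1 ≤ c) : 1 ≤ Bd c := by
  unfold Bd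
  have : (1 : ℝ) ≤ (2 * c) ^ 29 := one_le_pow₀ (by linarith)
  linarith

/-- the constant in the derivation theorem -/
def Kder : ℝ := 28 * Bd (29 / 28)

theorem Kder_le : 4 * Kder ≤ 15 * 10 ^ 13 := by
  unfold Kder Bd
  norm_num

theorem Kder_lt : 4 * Kder < ((15 * 10 ^ 13 : ℕ) : ℝ) := by
  unfold Kder Bd
  norm_num

theorem Kder_nonneg : 0 ≤ Kder := by
  unfold Kder Bd
  norm_num

/-- **Derivations into `B(H)`**, with a bound. -/
theorem der_bound (A : Type) [CStarAlgebra A] (H : Type) [NormedAddCommGroup H]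
    [InnerProductSpace ℂ H] [CompleteSpace H] (π : A →⋆ₐ[ℂ] (H →L[ℂ] H))
    (D : A →ₗ[ℂ] (H →L[ℂ] H)) (hD : ∀ a b, D (a * b) = π a * D b + D a * π b)
    (M : ℝ) (hM : 0 ≤ M) (hDM : ∀ a, ‖D a‖ ≤ M * ‖a‖) :
    ∃ T : H →L[ℂ] H, ‖T‖ ≤ Kder * M ∧ ∀ a, D a = T * π a - π a * T := by
  rcases hM.eq_or_lt with hM0 | hM0
  · refine ⟨0, ?_, ?_⟩
    · rw [norm_zero]
      exact mul_nonneg Kder_nonneg hM
    · intro a
      have := hDM a
      rw [← hM0, zero_mul, norm_le_zero_iff] at this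
      rw [this]
      simp
  · have hMc : ((28 * M : ℝ) : ℂ) ≠ 0 := by exact_mod_cast (by positivity : (28 * M : ℝ) ≠ 0)
    obtain ⟨D', hD'⟩ : ∃ D' : A →ₗ[ℂ] (H →L[ℂ] H), D' = (((28 * M : ℝ) : ℂ)⁻¹) • D := ⟨_, rfl⟩
    have hD'd : ∀ a b, D' (a * b) = π a * D' b + D' a * π b := by
      intro a b
      simp only [hD', LinearMap.smul_apply, hD, smul_add, mul_smul_comm, smul_mul_assoc]
    have hD'n : ∀ a, ‖D' a‖ ≤ (1 / 28) * ‖a‖ := by
      intro a
      rw [hD', LinearMap.smul_apply, norm_smul, norm_inv, Complex.norm_real,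
        Real.norm_of_nonneg (by positivity), inv_mul_le_iff₀ (by positivity)]
      refine (hDM a).trans (le_of_eq ?_)
      ring
    obtain ⟨hh, hn⟩ := prove4_dhom A H π D' hD'd (1 / 28) (by norm_num) hD'n
    have hn' : ∀ a, ‖uD π D' a‖ ≤ (29 / 28) * ‖a‖ := by
      intro a
      have := hn a
      norm_num at this
      linarith
    obtain ⟨S, S', hS1, hS2, hS3, hS4, hS5⟩ :=
      H770R2.Kad.fin_similar A (HH (Fin 2) H) (uD π D') hh (29 / 28) (by norm_num) hn'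
    obtain ⟨T, hT1, hT2⟩ := prove4_dinner A H π D' hD'd S S' hS1 hS2 hS5
    have hB : 0 ≤ Bd (29 / 28) := by
      have := one_le_Bd (c := 29 / 28) (by norm_num)
      linarith
    have hSS : ‖S‖ * ‖S'‖ ≤ Bd (29 / 28) := by
      have h1 : ‖S‖ ^ 2 ≤ Bd (29 / 28) := hS3
      have h2 : ‖S'‖ ^ 2 ≤ Bd (29 / 28) := hS4
      nlinarith [sq_nonneg (‖S‖ - ‖S'‖)]
    refine ⟨((28 * M : ℝ) : ℂ) • T, ?_, ?_⟩
    · rw [norm_smul, Complex.norm_real, Real.norm_of_nonneg (by positivity)]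
      calc 28 * M * ‖T‖ ≤ 28 * M * Bd (29 / 28) :=
            mul_le_mul_of_nonneg_left (hT1.trans hSS) (by positivity)
        _ = Kder * M := by unfold Kder; ring
    · intro a
      have h3 : D a = ((28 * M : ℝ) : ℂ) • D' a := by
        rw [hD', LinearMap.smul_apply, smul_smul, mul_inv_cancel₀ hMc, one_smul]
      rw [h3, hT2 a, smul_sub, smul_mul_assoc, mul_smul_comm]

end Pool.Agent.Y187.KP
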