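import Mathlib

/-!
Operator ranges: Douglas' lemma, and the homomorphism defined by an invariant operator range.
-/

set_option autoImplicit false

noncomputable section

open scoped ComplexOrder InnerProductSpace
open Filter Topology

namespace Pool.Agent.Y187.KP

section Douglas

variable {E F G : Type*} [NormedAddCommGroup E] [InnerProductSpace ℂ E] [CompleteSpace E]
  [NormedAddCommGroup F] [InnerProductSpace ℂ F] [CompleteSpace F]
  [NormedAddCommGroup G] [InnerProductSpace ℂ G] [CompleteSpace G]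

/-- Douglas' range inclusion lemma, with the norm bound. -/
theorem range_incl_norm (X : E →L[ℂ] F) (O : G →L[ℂ] F)
    (h : ∀ v, ‖ContinuousLinearMap.adjoint X v‖ ≤ ‖ContinuousLinearMap.adjoint O v‖) (g : E) :
    ∃ x : G, O x = X g ∧ ‖x‖ ≤ ‖g‖ := by
  classical
  set T := ContinuousLinearMap.adjoint X with hT
  set A := ContinuousLinearMap.adjoint O with hA
  have hwd : ∀ v w, A v = A w → T v = T w := by
    intro v w hvw
    have h1 := h (v - w)
    rw [map_sub, map_sub, hvw, sub_self, norm_zero] at h1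
    exact sub_eq_zero.mp (norm_le_zero_iff.mp h1)
  have hch : ∀ y : LinearMap.range (A : F →ₗ[ℂ] G), ∃ v : F, A v = (y : G) := fun y => by
    obtain ⟨v, hv⟩ := y.2
    exact ⟨v, hv⟩
  choose s hs using hch
  let ψ₀ : LinearMap.range (A : F →ₗ[ℂ] G) →ₗ[ℂ] ℂ :=
    { toFun := fun y => ⟪g, T (s y)⟫_ℂ
      map_add' := fun y z => by
        have h1 : T (s (y + z)) = T (s y + s z) := hwd _ _ (by
          rw [hs, map_add, hs, hs]; rfl)
        rw [h1, map_add, inner_add_right]
      map_smul' := fun c y => by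
        have h1 : T (s (c • y)) = T (c • s y) := hwd _ _ (by
          rw [hs, map_smul, hs]; rfl)
        rw [h1, map_smul, inner_smul_right]; rfl }
  have hb : ∀ y, ‖ψ₀ y‖ ≤ ‖g‖ * ‖y‖ := by
    intro y
    calc ‖ψ₀ y‖ = ‖⟪g, T (s y)⟫_ℂ‖ := rfl
      _ ≤ ‖g‖ * ‖T (s y)‖ := norm_inner_le_norm _ _
      _ ≤ ‖g‖ * ‖A (s y)‖ := mul_le_mul_of_nonneg_left (h _) (norm_nonneg _)
      _ = ‖g‖ * ‖y‖ := by rw [hs]; rfl
  obtain ⟨F', hF, hFn⟩ := exists_extension_norm_eq _ (ψ₀.mkContinuous ‖g‖ hb)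
  refine ⟨(InnerProductSpace.toDual ℂ G).symm F', ?_, ?_⟩
  swap
  · rw [LinearIsometryEquiv.norm_map, hFn]
    exact ψ₀.mkContinuous_norm_le (norm_nonneg g) hb
  refine ext_inner_right ℂ (fun v => ?_)
  have h2 : ⟪O ((InnerProductSpace.toDual ℂ G).symm F'), v⟫_ℂ = F' (A v) := by
    rw [← ContinuousLinearMap.adjoint_inner_right, InnerProductSpace.toDual_symm_apply]
  rw [h2, ← ContinuousLinearMap.adjoint_inner_right]
  have h3 := hF ⟨A v, ⟨v, rfl⟩⟩
  have h4 : T (s ⟨A v, ⟨v, rfl⟩⟩) = T v := hwd _ _ (hs _)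
  calc F' (A v) = ⟪g, T (s ⟨A v, ⟨v, rfl⟩⟩)⟫_ℂ := h3
    _ = ⟪g, T v⟫_ℂ := by rw [h4]

/-- Douglas' range inclusion lemma. -/
theorem range_incl (X : E →L[ℂ] F) (O : G →L[ℂ] F)
    (h : ∀ v, ‖ContinuousLinearMap.adjoint X v‖ ≤ ‖ContinuousLinearMap.adjoint O v‖) (g : E) :
    ∃ x : G, O x = X g := by
  obtain ⟨x, hx, -⟩ := range_incl_norm X O h g
  exact ⟨x, hx⟩

/-- Douglas' range inclusion lemma, with a constant. -/
theorem range_incl_const (X : E →L[ℂ] F) (O : G →L[ℂ] F) {C : ℝ} (hC : 0 ≤ C)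
    (h : ∀ v, ‖ContinuousLinearMap.adjoint X v‖ ≤ C * ‖ContinuousLinearMap.adjoint O v‖) (g : E) :
    ∃ x : G, O x = X g ∧ ‖x‖ ≤ C * ‖g‖ := by
  obtain ⟨x, hx, hn⟩ := range_incl_norm X ((C : ℂ) • O) (fun v => by
    have e : ContinuousLinearMap.adjoint ((C : ℂ) • O) v =
        (C : ℂ) • ContinuousLinearMap.adjoint O v := by
      rw [map_smulₛₗ, Complex.conj_ofReal]
      rfl
    rw [e, norm_smul, Complex.norm_real, Real.norm_of_nonneg hC]
    exact h v) g
  refine ⟨(C : ℂ) • x, ?_, ?_⟩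
  · rw [map_smul]
    exact hx
  · rw [norm_smul, Complex.norm_real, Real.norm_of_nonneg hC]
    exact mul_le_mul_of_nonneg_left hn hC

/-- The square root of `W W*` has the range of `W`. -/
theorem range_sqrt (W : G →L[ℂ] F) (D : F →L[ℂ] F) (hD : IsSelfAdjoint D)
    (hDD : D * D = W ∘L ContinuousLinearMap.adjoint W) :
    LinearMap.range (D : F →ₗ[ℂ] F) = LinearMap.range (W : G →ₗ[ℂ] F) := by
  have hDa : ContinuousLinearMap.adjoint D = D := hD
  have key : ∀ v, ‖ContinuousLinearMap.adjoint D v‖ = ‖ContinuousLinearMap.adjoint W v‖ := by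
    intro v
    have e1 : ⟪D v, D v⟫_ℂ = ⟪v, (D * D) v⟫_ℂ := by
      have := ContinuousLinearMap.adjoint_inner_right D v (D v)
      rw [hDa] at this
      exact this.symm
    have e2 : ⟪ContinuousLinearMap.adjoint W v, ContinuousLinearMap.adjoint W v⟫_ℂ =
        ⟪v, (W ∘L ContinuousLinearMap.adjoint W) v⟫_ℂ := by
      show _ = ⟪v, W (ContinuousLinearMap.adjoint W v)⟫_ℂ
      rw [ContinuousLinearMap.adjoint_inner_left]
    rw [hDD, ← e2, inner_self_eq_norm_sq_to_K, inner_self_eq_norm_sq_to_K] at e1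
    rw [hDa]
    have e3 : ‖D v‖ ^ 2 = ‖ContinuousLinearMap.adjoint W v‖ ^ 2 := by exact_mod_cast e1
    exact (pow_left_inj₀ (norm_nonneg _) (norm_nonneg _) two_ne_zero).1 e3
  apply le_antisymm
  · rintro _ ⟨v, rfl⟩
    obtain ⟨x, hx⟩ := range_incl D W (fun v => (key v).le) v
    exact ⟨x, hx⟩
  · rintro _ ⟨v, rfl⟩
    obtain ⟨x, hx⟩ := range_incl W D (fun v => (key v).ge) v
    exact ⟨x, hx⟩

end Douglas

section induced

variable {H K : Type*} [NormedAddCommGroup H] [InnerProductSpace ℂ H] [CompleteSpace H]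
  [NormedAddCommGroup K] [InnerProductSpace ℂ K] [CompleteSpace K]

/-- An injective operator whose range is invariant under a C*-algebra carries a homomorphism. -/
theorem exists_hom (A : StarSubalgebra ℂ (H →L[ℂ] H)) (hA : IsClosed (A : Set (H →L[ℂ] H)))
    (T : K →L[ℂ] H) (hinj : Function.Injective T)
    (hT : ∀ a ∈ A, ∀ x, ∃ y, T y = a (T x)) :
    ∃ u : A →ₐ[ℂ] (K →L[ℂ] K), (∀ a k, T (u a k) = (a : H →L[ℂ] H) (T k)) ∧
      ∃ C : ℝ, ∀ a, ‖u a‖ ≤ C * ‖a‖ := by
  choose f hf using hT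
  have hf' : ∀ (a : A) (k : K), T (f a a.2 k) = (a : H →L[ℂ] H) (T k) := fun a k => hf a a.2 k
  -- the operators
  have hlin : ∀ a : A, ∃ v : K →L[ℂ] K, ∀ k, v k = f a a.2 k := by
    intro a
    let g : K →ₗ[ℂ] K :=
      { toFun := fun k => f a a.2 k
        map_add' := fun x y => hinj (by rw [map_add, hf', hf', hf', map_add, map_add])
        map_smul' := fun r x => hinj (by
          rw [RingHom.id_apply, map_smul, hf', hf', map_smul, map_smul]) }
    refine ⟨⟨g, ?_⟩, fun k => rfl⟩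
    refine g.continuous_of_seq_closed_graph fun w x y hw hy => ?_
    apply hinj
    have h1 : Tendsto (fun n => T (g (w n))) atTop (𝓝 (T y)) := (T.continuous.tendsto y).comp hy
    have h2 : Tendsto (fun n => T (g (w n))) atTop (𝓝 ((a : H →L[ℂ] H) (T x))) := by
      have e : (fun n => T (g (w n))) = fun n => (a : H →L[ℂ] H) (T (w n)) := by
        funext n
        exact hf' a (w n)
      rw [e]
      exact (((a : H →L[ℂ] H).continuous.comp T.continuous).tendsto x).comp hw
    have h3 := tendsto_nhds_unique h1 h2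
    rw [h3]
    exact (hf' a x).symm
  choose v hv using hlin
  have hTv : ∀ (a : A) (k : K), T (v a k) = (a : H →L[ℂ] H) (T k) := fun a k => by
    rw [hv, hf']
  have hext : ∀ {p q : K →L[ℂ] K}, (∀ k, T (p k) = T (q k)) → p = q := fun h =>
    ContinuousLinearMap.ext fun k => hinj (h k)
  let u : A →ₐ[ℂ] (K →L[ℂ] K) :=
    { toFun := v
      map_one' := hext fun k => by rw [hTv]; rfl
      map_mul' := fun a b => hext fun k => by
        rw [hTv]
        show _ = T (v a (v b k))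
        rw [hTv, hTv]; rfl
      map_zero' := hext fun k => by rw [hTv]; simp
      map_add' := fun a b => hext fun k => by
        rw [hTv, add_apply, map_add, hTv, hTv]; rfl
      commutes' := fun r => hext fun k => by
        rw [hTv]
        simp [Algebra.algebraMap_eq_smul_one] }
  have : IsClosed (A : Set (H →L[ℂ] H)) := hA
  have : CompleteSpace A := hA.completeSpace_coe
  refine ⟨u, hTv, ?_⟩
  have hcont : Continuous (u : A →ₗ[ℂ] (K →L[ℂ] K)) := by
    refine LinearMap.continuous_of_seq_closed_graph (u : A →ₗ[ℂ] (K →L[ℂ] K)) fun w x y hw hy => ?_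
    apply hext
    intro k
    have h1 : Tendsto (fun n => T (v (w n) k)) atTop (𝓝 (T (y k))) := by
      have h2 : Tendsto (fun n => v (w n) k) atTop (𝓝 (y k)) :=
        ((ContinuousLinearMap.apply ℂ K k).continuous.tendsto y).comp hy
      exact (T.continuous.tendsto _).comp h2
    have h2 : Tendsto (fun n => T (v (w n) k)) atTop (𝓝 ((x : H →L[ℂ] H) (T k))) := by
      have e : (fun n => T (v (w n) k)) = fun n => ((w n : A) : H →L[ℂ] H) (T k) := by
        funext n
        exact hTv (w n) k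
      rw [e]
      have h3 : Tendsto (fun n => ((w n : A) : H →L[ℂ] H)) atTop (𝓝 (x : H →L[ℂ] H)) :=
        (continuous_subtype_val.tendsto x).comp hw
      exact ((ContinuousLinearMap.apply ℂ H (T k)).continuous.tendsto _).comp h3
    have h3 := tendsto_nhds_unique h1 h2
    rw [h3]
    exact (hTv x k).symm
  let U : A →L[ℂ] (K →L[ℂ] K) := ⟨(u : A →ₗ[ℂ] (K →L[ℂ] K)), hcont⟩
  exact ⟨‖U‖, fun a => U.le_opNorm a⟩

end induced

end Pool.Agent.Y187.KP
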