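import Pool.Agent.Y187.KP.Main
import Pool.Agent.Y187.KP.Ran

/-!
Operator ranges invariant under a C*-algebra are ranges of operators of the commutant.
-/

set_option autoImplicit false

noncomputable section

open scoped ComplexOrder InnerProductSpace

namespace Pool.Agent.Y187.KP

open ContinuousLinearMap (adjoint)

variable {H K : Type} [NormedAddCommGroup H] [InnerProductSpace ℂ H] [CompleteSpace H]
  [NormedAddCommGroup K] [InnerProductSpace ℂ K] [CompleteSpace K]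

/-- injective case, with a bound -/
theorem inv_inj (A : StarSubalgebra ℂ (H →L[ℂ] H)) (hA : IsClosed (A : Set (H →L[ℂ] H)))
    (T : K →L[ℂ] H) (hinj : Function.Injective T) (u : A →ₐ[ℂ] (K →L[ℂ] K))
    (huT : ∀ a k, T (u a k) = (a : H →L[ℂ] H) (T k)) (c : ℝ) (hc : 1 ≤ c)
    (hu : ∀ a, ‖u a‖ ≤ c * ‖a‖) :
    ∃ D : H →L[ℂ] H, 0 ≤ D ∧ (∀ a ∈ A, a * D = D * a) ∧
      LinearMap.range (D : H →ₗ[ℂ] H) = LinearMap.range (T : K →ₗ[ℂ] H) ∧
      ∀ h, ‖D h‖ ≤ c ^ (10 ^ 14) * ‖adjoint T h‖ ∧ ‖adjoint T h‖ ≤ c ^ (10 ^ 14) * ‖D h‖ := by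
  have : IsClosed (A : Set (H →L[ℂ] H)) := hA
  obtain ⟨L, P, -, h, hL1, -⟩ := main (A := A) (H := K) (u := u) hc hu
  obtain ⟨s, hs⟩ : ∃ s, s = (h.S : K →L[ℂ] K) := ⟨_, rfl⟩
  obtain ⟨r, hr⟩ : ∃ r, r = ((h.S⁻¹ : (K →L[ℂ] K)ˣ) : K →L[ℂ] K) := ⟨_, rfl⟩
  have hsr : s * r = 1 := by rw [hs, hr, Units.mul_inv]
  have hrs : r * s = 1 := by rw [hs, hr, Units.inv_mul]
  have hss : adjoint s = s := by rw [hs]; exact h.S_star
  have hrr : adjoint r = r := by rw [hr]; exact h.Sinv_star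
  have hbound : Real.exp L ≤ (c ^ (10 ^ 14)) ^ 2 := by
    rw [← pow_mul]
    refine hL1.trans (pow_le_pow_right₀ hc ?_)
    norm_num
  have hc14 : 0 ≤ c ^ (10 ^ 14) := pow_nonneg (by linarith) _
  have hsn : ‖s‖ ≤ c ^ (10 ^ 14) := by
    have := h.norm_S_sq.trans hbound
    rw [← hs] at this
    exact le_of_sq_le_sq this hc14
  have hrn : ‖r‖ ≤ c ^ (10 ^ 14) := by
    have := h.norm_Sinv_sq.trans hbound
    rw [← hr] at this
    exact le_of_sq_le_sq this hc14
  obtain ⟨W, hW⟩ : ∃ W : K →L[ℂ] H, W = T ∘L r := ⟨_, rfl⟩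
  have hWa : adjoint W = r ∘L adjoint T := by
    rw [hW, ContinuousLinearMap.adjoint_comp, hrr]
  have hTa : adjoint T = s ∘L adjoint W := by
    rw [hWa]
    ext v
    show adjoint T v = s (r (adjoint T v))
    exact (congrArg (fun X : K →L[ℂ] K => X (adjoint T v)) hsr).symm
  -- intertwining
  have hint : ∀ (a : A) (k : K), (a : H →L[ℂ] H) (W k) = W (h.rep a k) := by
    intro a k
    rw [hW, h.rep_apply, ← hs, ← hr]
    show (a : H →L[ℂ] H) (T (r k)) = T (r ((s * u a * r) k))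
    rw [← huT]
    congr 1
    show u a (r k) = (r * (s * u a * r)) k
    have e : r * (s * u a * r) = (r * s) * (u a * r) := by simp only [mul_assoc]
    rw [e, hrs, one_mul]
    rfl
  obtain ⟨Q, hQ⟩ : ∃ Q : H →L[ℂ] H, Q = W ∘L adjoint W := ⟨_, rfl⟩
  have hQsa : IsSelfAdjoint Q := by
    rw [hQ, isSelfAdjoint_iff]
    show adjoint (W ∘L adjoint W) = _
    rw [ContinuousLinearMap.adjoint_comp, ContinuousLinearMap.adjoint_adjoint]
  have hQ0 : 0 ≤ Q := by
    rw [ContinuousLinearMap.nonneg_iff_isPositive, hQ]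
    have h1 := (ContinuousLinearMap.isPositive_one (E := K) (𝕜 := ℂ)).conj_adjoint W
    have e : W ∘L (1 : K →L[ℂ] K) ∘L adjoint W = W ∘L adjoint W := rfl
    rwa [e] at h1
  have hQc : ∀ a ∈ A, Commute a Q := by
    have key : ∀ a : A, (a : H →L[ℂ] H) * Q = W ∘L ((h.rep a) ∘L adjoint W) := by
      intro a
      rw [hQ]
      ext v
      exact hint a _
    intro a ha
    have k1 := key ⟨a, ha⟩
    have k2 := congrArg star (key (star ⟨a, ha⟩))
    have e1 : star (((star ⟨a, ha⟩ : A) : H →L[ℂ] H) * Q) = Q * a := by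
      rw [star_mul, hQsa.star_eq]
      congr 1
      exact star_star a
    have e2 : star (W ∘L ((h.rep (star ⟨a, ha⟩)) ∘L adjoint W)) =
        W ∘L ((h.rep ⟨a, ha⟩) ∘L adjoint W) := by
      show adjoint (W ∘L ((h.rep (star ⟨a, ha⟩)) ∘L adjoint W)) = _
      rw [ContinuousLinearMap.adjoint_comp, ContinuousLinearMap.adjoint_comp,
        ContinuousLinearMap.adjoint_adjoint]
      have : adjoint (h.rep (star ⟨a, ha⟩)) = h.rep ⟨a, ha⟩ := by
        have := map_star h.rep (star (⟨a, ha⟩ : A))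
        rw [star_star] at this
        rw [this]
        rfl
      rw [this]
      rfl
    rw [e1, e2] at k2
    show a * Q = Q * a
    rw [k2]
    exact k1
  obtain ⟨D, hD⟩ : ∃ D : H →L[ℂ] H, D = CFC.sqrt Q := ⟨_, rfl⟩
  have hD0 : 0 ≤ D := by rw [hD]; exact CFC.sqrt_nonneg Q
  have hDsa : IsSelfAdjoint D := IsSelfAdjoint.of_nonneg hD0
  have hDD : D * D = Q := by rw [hD]; exact CFC.sqrt_mul_sqrt_self Q hQ0
  have hDn : ∀ v, ‖D v‖ = ‖adjoint W v‖ := by
    intro v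
    have hDa : adjoint D = D := hDsa
    have e1 : ⟪D v, D v⟫_ℂ = ⟪v, (D * D) v⟫_ℂ := by
      have := ContinuousLinearMap.adjoint_inner_right D v (D v)
      rw [hDa] at this
      exact this.symm
    have e2 : ⟪adjoint W v, adjoint W v⟫_ℂ = ⟪v, (W ∘L adjoint W) v⟫_ℂ := by
      show _ = ⟪v, W (adjoint W v)⟫_ℂ
      rw [ContinuousLinearMap.adjoint_inner_left]
    rw [hDD, hQ, ← e2, inner_self_eq_norm_sq_to_K, inner_self_eq_norm_sq_to_K] at e1
    have e3 : ‖D v‖ ^ 2 = ‖adjoint W v‖ ^ 2 := by exact_mod_cast e1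
    exact (pow_left_inj₀ (norm_nonneg _) (norm_nonneg _) two_ne_zero).1 e3
  refine ⟨D, hD0, ?_, ?_, ?_⟩
  · intro a ha
    have h1 : Commute Q a := (hQc a ha).symm
    have h2 : Commute D a := by
      rw [hD, CFC.sqrt_eq_real_sqrt Q hQ0]
      exact h1.cfcₙ_real Real.sqrt
    exact h2.symm.eq
  · rw [range_sqrt W D hDsa (by rw [hDD, hQ])]
    apply le_antisymm
    · rintro _ ⟨v, rfl⟩
      exact ⟨r v, by rw [hW]; rfl⟩
    · rintro _ ⟨v, rfl⟩
      refine ⟨s v, ?_⟩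
      rw [hW]
      show T (r (s v)) = T v
      exact congrArg T (congrArg (fun X : K →L[ℂ] K => X v) hrs)
  · intro v
    rw [hDn]
    constructor
    · rw [hWa]
      exact (r.le_opNorm _).trans (mul_le_mul_of_nonneg_right hrn (norm_nonneg _))
    · nth_rw 1 [hTa]
      exact (s.le_opNorm _).trans (mul_le_mul_of_nonneg_right hsn (norm_nonneg _))

/-- reduction to the injective case -/
theorem inv_red (A : StarSubalgebra ℂ (H →L[ℂ] H)) (T : K →L[ℂ] H) :
    ∃ (K₁ : Submodule ℂ K) (_ : CompleteSpace K₁) (T₁ : K₁ →L[ℂ] H) (p : K →L[ℂ] K₁),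
      Function.Injective T₁ ∧ (∀ k, T₁ (p k) = T k) ∧ (∀ k, ‖p k‖ ≤ ‖k‖) ∧
      (∀ k : K₁, T₁ k = T k) ∧ (∀ h, ‖adjoint T₁ h‖ = ‖adjoint T h‖) := by
  obtain ⟨K₁, hK₁⟩ : ∃ K₁ : Submodule ℂ K, K₁ = (LinearMap.ker (T : K →ₗ[ℂ] H))ᗮ := ⟨_, rfl⟩
  have hcl : IsClosed (K₁ : Set K) := by rw [hK₁]; exact Submodule.isClosed_orthogonal _
  have hcomp : CompleteSpace K₁ := hcl.completeSpace_coe
  have hkcl : IsClosed ((LinearMap.ker (T : K →ₗ[ℂ] H) : Submodule ℂ K) : Set K) := T.isClosed_ker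
  have hkc : CompleteSpace (LinearMap.ker (T : K →ₗ[ℂ] H)) := hkcl.completeSpace_coe
  have horth : K₁ᗮ = LinearMap.ker (T : K →ₗ[ℂ] H) := by
    rw [hK₁]
    exact Submodule.orthogonal_orthogonal _
  have hTp : ∀ k, T ((K₁.orthogonalProjectionOnto k : K₁) : K) = T k := by
    intro k
    have h1 : k - ((K₁.orthogonalProjectionOnto k : K₁) : K) ∈ K₁ᗮ :=
      Submodule.sub_starProjection_mem_orthogonal (K := K₁) k
    rw [horth, LinearMap.mem_ker] at h1
    have h2 : T (k - ((K₁.orthogonalProjectionOnto k : K₁) : K)) = 0 := h1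
    rw [map_sub, sub_eq_zero] at h2
    exact h2.symm
  refine ⟨K₁, hcomp, T ∘L K₁.subtypeL, K₁.orthogonalProjectionOnto, ?_, ?_, ?_, ?_, ?_⟩
  · intro x y hxy
    have h1 : (x - y : K₁) = 0 := by
      have h2 : ((x - y : K₁) : K) ∈ LinearMap.ker (T : K →ₗ[ℂ] H) := by
        rw [LinearMap.mem_ker]
        show T ((x : K) - y) = 0
        rw [map_sub, sub_eq_zero]
        exact hxy
      rw [← horth] at h2
      have h3 := Submodule.inner_right_of_mem_orthogonal (x - y).2 h2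
      exact Subtype.ext (inner_self_eq_zero.1 h3)
    exact sub_eq_zero.1 h1
  · intro k
    exact hTp k
  · intro k
    exact K₁.norm_orthogonalProjectionOnto_apply_le k
  · intro k
    rfl
  · intro v
    have e : adjoint (T ∘L K₁.subtypeL) v = K₁.orthogonalProjectionOnto (adjoint T v) := by
      rw [ContinuousLinearMap.adjoint_comp, Submodule.adjoint_subtypeL]
      rfl
    rw [e]
    have hmem : adjoint T v ∈ K₁ := by
      rw [hK₁, Submodule.mem_orthogonal]
      intro k hk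
      rw [ContinuousLinearMap.adjoint_inner_right]
      have : T k = 0 := hk
      rw [this, inner_zero_left]
    have h2 : ((K₁.orthogonalProjectionOnto (adjoint T v) : K₁) : K) = adjoint T v :=
      Submodule.starProjection_eq_self_iff.2 hmem
    calc ‖K₁.orthogonalProjectionOnto (adjoint T v)‖
        = ‖((K₁.orthogonalProjectionOnto (adjoint T v) : K₁) : K)‖ := rfl
      _ = ‖adjoint T v‖ := by rw [h2]

end Pool.Agent.Y187.KP
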