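import Pool.Agent.Y187.KP.Der

/-!
Bounded homomorphisms of C*-algebras: similarity constants bounded by a power of the norm.
-/

set_option autoImplicit false

noncomputable section

open scoped ComplexOrder

namespace Pool.Agent.Y187.KP

open H759R2.Kad

variable {A : Type} [CStarAlgebra A] {H : Type} [NormedAddCommGroup H] [InnerProductSpace ℂ H]
  [CompleteSpace H]

/-- the selfadjoint element of the commutant near the logarithm -/
theorem exists_commutant {u : A →ₐ[ℂ] (H →L[ℂ] H)} {c : ℝ} (hc : 1 ≤ c)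
    (hu : ∀ x, ‖u x‖ ≤ c * ‖x‖) {L : ℝ} {P : H →L[ℂ] H} (h : Met u L P) :
    ∃ T0 : H →L[ℂ] H, IsSelfAdjoint T0 ∧ (∀ a, T0 * h.rep a = h.rep a * T0) ∧
      ‖h.Z - T0‖ ≤ Kder * (4 * Real.log c) := by
  have hl := Real.log_nonneg hc
  obtain ⟨T, hT1, hT2⟩ := der_bound A H h.rep h.der h.der_mul (4 * Real.log c) (by positivity)
    (h.der_le hc hu)
  -- `Z - T` commutes with the range
  have hc1 : ∀ a, (h.Z - T) * h.rep a = h.rep a * (h.Z - T) := by
    intro a
    have := hT2 a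
    rw [h.der_apply] at this
    rw [sub_mul, mul_sub]
    have e : h.Z * h.rep a = T * h.rep a - h.rep a * T + h.rep a * h.Z := by
      rw [← this]; abel
    rw [e]; abel
  have hc2 : ∀ a, star (h.Z - T) * h.rep a = h.rep a * star (h.Z - T) := by
    intro a
    have := congrArg star (hc1 (star a))
    rw [star_mul, star_mul, map_star, star_star] at this
    exact this.symm
  refine ⟨(2⁻¹ : ℝ) • ((h.Z - T) + star (h.Z - T)), ?_, ?_, ?_⟩
  · rw [isSelfAdjoint_iff, star_smul, star_add, star_star, add_comm]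
    simp
  · intro a
    rw [smul_mul_assoc, mul_smul_comm, add_mul, mul_add, hc1, hc2]
  · have e : h.Z - (2⁻¹ : ℝ) • ((h.Z - T) + star (h.Z - T)) = (2⁻¹ : ℝ) • (T + star T) := by
      rw [star_sub, h.Z_sa.star_eq]
      have : (2⁻¹ : ℝ) • (T + star T) + (2⁻¹ : ℝ) • ((h.Z - T) + (h.Z - star T)) = h.Z := by
        rw [← smul_add]
        have : T + star T + (h.Z - T + (h.Z - star T)) = (2 : ℝ) • h.Z := by
          rw [two_smul]; abel
        rw [this, smul_smul]
        norm_num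
      exact sub_eq_iff_eq_add.2 this.symm
    rw [e, norm_smul]
    have h1 : ‖T + star T‖ ≤ ‖T‖ + ‖T‖ := by
      refine (norm_add_le _ _).trans ?_
      rw [norm_star]
    have h2 : ‖(2⁻¹ : ℝ)‖ = 2⁻¹ := by norm_num
    rw [h2]
    linarith

/-- the starting theorem gives a first metric -/
theorem exists_start {u : A →ₐ[ℂ] (H →L[ℂ] H)} {c : ℝ} (hc : 1 ≤ c)
    (hu : ∀ x, ‖u x‖ ≤ c * ‖x‖) : ∃ P, Met u (Real.log (Bd c)) P := by
  obtain ⟨S, S', h1, h2, h3, h4, h5⟩ := H770R2.Kad.fin_similar A H u.toLinearMap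
    ⟨fun a b => map_mul u a b, map_one u⟩ c hc hu
  have hB := one_le_Bd hc
  have hB0 : 0 < Bd c := by linarith
  refine ⟨star S * S, ?_, ?_, ?_⟩
  · -- lower bound
    rw [Real.exp_neg, Real.exp_log hB0]
    have k1 : star S' * S' ≤ algebraMap ℝ (H →L[ℂ] H) (Bd c) := by
      refine (CStarAlgebra.star_mul_le_algebraMap_norm_sq (a := S')).trans (algebraMap_mono' h4)
    have k2 := star_left_conjugate_le_conjugate k1 S
    have e1 : star S * (star S' * S') * S = 1 := by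
      have : star S * (star S' * S') * S = star (S' * S) * (S' * S) := by
        rw [star_mul]
        simp only [mul_assoc]
      rw [this, h2, star_one, mul_one]
    have e2 : star S * algebraMap ℝ (H →L[ℂ] H) (Bd c) * S = Bd c • (star S * S) := by
      rw [← Algebra.commutes, mul_assoc, Algebra.smul_def]
    rw [e1, e2] at k2
    have k3 : (Bd c)⁻¹ • (1 : H →L[ℂ] H) ≤ (Bd c)⁻¹ • (Bd c • (star S * S)) :=
      smul_le_smul_of_nonneg_left k2 (by positivity)
    rwa [smul_smul, inv_mul_cancel₀ hB0.ne', one_smul, ← Algebra.algebraMap_eq_smul_one] at k3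
  · rw [Real.exp_log hB0]
    exact (CStarAlgebra.star_mul_le_algebraMap_norm_sq (a := S)).trans (algebraMap_mono' h3)
  · intro a
    have k := h5 (star a)
    rw [star_star] at k
    have k' : S * u a * S' = star (S * u (star a) * S') := k.symm
    calc star S * S * u a = star S * (S * u a * S') * S := by
          simp only [mul_assoc]
          rw [h2, mul_one]
      _ = star S * star (S * u (star a) * S') * S := by rw [k']
      _ = star (S * u (star a) * (S' * S)) * S := by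
          rw [← star_mul]
          simp only [mul_assoc]
      _ = star (u (star a)) * (star S * S) := by
          rw [h2, mul_one, star_mul, mul_assoc]

/-- **Main theorem.** -/
theorem main {u : A →ₐ[ℂ] (H →L[ℂ] H)} {c : ℝ} (hc : 1 ≤ c) (hu : ∀ x, ‖u x‖ ≤ c * ‖x‖) :
    ∃ (L : ℝ) (P : H →L[ℂ] H), 0 ≤ L ∧ Met u L P ∧ Real.exp L ≤ c ^ (15 * 10 ^ 13) ∧
      Real.exp L ≤ Bd c := by
  obtain ⟨N, hN⟩ : ∃ N : ℕ, N = 15 * 10 ^ 13 := ⟨_, rfl⟩
  rw [← hN]
  have hB := one_le_Bd hc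
  have hB0 : 0 < Bd c := by linarith
  obtain ⟨P0, hP0⟩ := exists_start hc hu
  have hl := Real.log_nonneg hc
  have hcN : (1 : ℝ) ≤ c ^ N := one_le_pow₀ hc
  rcases hc.eq_or_lt with h1 | h1
  · -- contractive
    refine ⟨0, 1, le_refl 0, ⟨?_, ?_, ?_⟩, ?_, ?_⟩
    · rw [neg_zero, Real.exp_zero, map_one]
    · rw [Real.exp_zero, map_one]
    · intro a
      have := star_of_contractive u (fun x => by rw [← one_mul ‖x‖, h1]; exact hu x) (star a)
      rw [star_star] at this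
      rw [one_mul, mul_one, this]
    · rw [Real.exp_zero]; exact hcN
    · rw [Real.exp_zero]; exact hB
  · have hlp : 0 < Real.log c := Real.log_pos h1
    rcases le_or_gt (Bd c) (c ^ N) with h2 | h2
    · exact ⟨Real.log (Bd c), P0, Real.log_nonneg hB, hP0, by rw [Real.exp_log hB0]; exact h2,
        by rw [Real.exp_log hB0]⟩
    · have hκ : Kder * (4 * Real.log c) < N * Real.log c := by
        have h3 := Kder_lt
        rw [← hN] at h3
        nlinarith
      obtain ⟨P, hP⟩ := exists_small (mul_nonneg Kder_nonneg (by positivity))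
        (fun L P h _ => exists_commutant hc hu h)
        ⟨Real.log (Bd c), P0, Real.log_nonneg hB, hP0⟩ _ hκ
      have e : Real.exp (N * Real.log c) = c ^ N := by
        rw [mul_comm, Real.exp_mul, Real.exp_log (by linarith), Real.rpow_natCast]
      exact ⟨_, P, by positivity, hP, e.le, by rw [e]; exact h2.le⟩

/-- The *-homomorphism `S u S⁻¹` is close to `u`. -/
theorem Met.close {u : A →ₐ[ℂ] (H →L[ℂ] H)} {c : ℝ} (hc : 1 ≤ c) (hu : ∀ x, ‖u x‖ ≤ c * ‖x‖)
    {L : ℝ} {P : H →L[ℂ] H} (h : Met u L P) (hL : 0 ≤ L) (x : A) :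
    ‖u x - h.rep x‖ ≤ c * (Real.exp L - 1) * ‖x‖ := by
  obtain ⟨r, hr⟩ : ∃ r, r = Real.exp (L / 2) := ⟨_, rfl⟩
  have hr1 : 1 ≤ r := by rw [hr]; exact Real.one_le_exp (by linarith)
  have hr2 : r * r = Real.exp L := by rw [hr, ← Real.exp_add]; congr 1; ring
  -- spectrum of `S`
  have hPs : IsSelfAdjoint P := h.strict.isSelfAdjoint
  have eS : (h.S : H →L[ℂ] H) = cfc Real.sqrt P := by
    rw [h.S_val, CFC.sqrt_eq_real_sqrt P h.strict.nonneg, cfcₙ_eq_cfc]
  have hsq : ∀ s ∈ spectrum ℝ P, r⁻¹ ≤ √s ∧ √s ≤ r := by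
    intro s hs
    obtain ⟨h0, h1, h2⟩ := h.spec hs
    have e1 : √s = Real.exp (Real.log s / 2) := by
      rw [Real.exp_half, Real.exp_log h0]
    rw [e1, hr, ← Real.exp_neg]
    exact ⟨Real.exp_le_exp.2 (by linarith), Real.exp_le_exp.2 (by linarith)⟩
  have hri : 0 < r⁻¹ := by positivity
  have hrr : r * r⁻¹ = 1 := mul_inv_cancel₀ (by positivity)
  have hd1 : ‖(h.S : H →L[ℂ] H) - 1‖ ≤ r - 1 := by
    have e1 : (h.S : H →L[ℂ] H) - 1 = cfc (fun s : ℝ => √s - 1) P := by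
      rw [cfc_sub Real.sqrt (fun _ => 1) P (by fun_prop) (by fun_prop), cfc_const_one ℝ P, eS]
    rw [e1]
    refine norm_cfc_le (by linarith) fun s hs => ?_
    obtain ⟨k1, k2⟩ := hsq s hs
    rw [Real.norm_eq_abs, abs_le]
    constructor
    · nlinarith [sq_nonneg (r - 1)]
    · linarith
  have hd2 : ‖((h.S⁻¹ : (H →L[ℂ] H)ˣ) : H →L[ℂ] H) - 1‖ ≤ r - 1 := by
    have hc0 : ContinuousOn (fun s : ℝ => (√s)⁻¹) (spectrum ℝ P) := by
      refine ContinuousOn.inv₀ (by fun_prop) fun s hs => ?_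
      have := (hsq s hs).1
      linarith
    have e0 : ((h.S⁻¹ : (H →L[ℂ] H)ˣ) : H →L[ℂ] H) = cfc (fun s : ℝ => (√s)⁻¹) P := by
      have : (h.S : H →L[ℂ] H) * cfc (fun s : ℝ => (√s)⁻¹) P = 1 := by
        rw [eS, ← cfc_mul Real.sqrt (fun s : ℝ => (√s)⁻¹) P (by fun_prop) hc0,
          ← cfc_const_one ℝ P]
        refine cfc_congr fun s hs => ?_
        have := (hsq s hs).1
        exact mul_inv_cancel₀ (by linarith)
      calc ((h.S⁻¹ : (H →L[ℂ] H)ˣ) : H →L[ℂ] H)
          = ((h.S⁻¹ : (H →L[ℂ] H)ˣ) : H →L[ℂ] H) * ((h.S : H →L[ℂ] H) *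
            cfc (fun s : ℝ => (√s)⁻¹) P) := by rw [this, mul_one]
        _ = _ := by rw [← mul_assoc, Units.inv_mul, one_mul]
    have e1 : ((h.S⁻¹ : (H →L[ℂ] H)ˣ) : H →L[ℂ] H) - 1 = cfc (fun s : ℝ => (√s)⁻¹ - 1) P := by
      rw [cfc_sub (fun s : ℝ => (√s)⁻¹) (fun _ => 1) P hc0 (by fun_prop), cfc_const_one ℝ P, e0]
    rw [e1]
    refine norm_cfc_le (by linarith) fun s hs => ?_
    obtain ⟨k1, k2⟩ := hsq s hs
    have hs0 : 0 < √s := by linarith
    have k3 : (√s)⁻¹ ≤ r := by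
      rw [inv_le_comm₀ hs0 (by linarith)]
      exact k1
    have k4 : r⁻¹ ≤ (√s)⁻¹ := inv_anti₀ hs0 k2
    rw [Real.norm_eq_abs, abs_le]
    constructor
    · nlinarith [sq_nonneg (r - 1)]
    · linarith
  have hSi : ‖((h.S⁻¹ : (H →L[ℂ] H)ˣ) : H →L[ℂ] H)‖ ≤ r := by
    have := h.norm_Sinv_sq
    rw [← hr2, ← sq] at this
    exact le_of_sq_le_sq this (by linarith)
  obtain ⟨s, hs⟩ : ∃ s, s = (h.S : H →L[ℂ] H) := ⟨_, rfl⟩
  obtain ⟨s', hs'⟩ : ∃ s', s' = ((h.S⁻¹ : (H →L[ℂ] H)ˣ) : H →L[ℂ] H) := ⟨_, rfl⟩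
  rw [h.rep_apply, ← hs, ← hs']
  rw [← hs] at hd1
  rw [← hs'] at hd2 hSi
  have e : u x - s * u x * s' = -((s - 1) * u x * s' + u x * (s' - 1)) := by
    simp only [sub_mul, mul_sub, one_mul, mul_one]
    abel
  rw [e, norm_neg]
  have hux := hu x
  have hr0 : 0 ≤ r - 1 := by linarith
  calc ‖(s - 1) * u x * s' + u x * (s' - 1)‖
      ≤ ‖(s - 1) * u x * s'‖ + ‖u x * (s' - 1)‖ := norm_add_le _ _
    _ ≤ (r - 1) * (c * ‖x‖) * r + (c * ‖x‖) * (r - 1) := by
        apply add_le_add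
        · refine (norm_mul_le _ _).trans (mul_le_mul ((norm_mul_le _ _).trans
            (mul_le_mul hd1 hux (norm_nonneg _) hr0)) hSi (norm_nonneg _) (by positivity))
        · exact (norm_mul_le _ _).trans (mul_le_mul hux hd2 (norm_nonneg _) (by positivity))
    _ = c * (r * r - 1) * ‖x‖ := by ring
    _ = c * (Real.exp L - 1) * ‖x‖ := by rw [hr2]

end Pool.Agent.Y187.KP
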